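import Mathlib
import Pool.Agent.Lib.helper29.Krein3

set_option autoImplicit false

namespace Pool.Agent.Results.MP_a2f955_an.Minimal

open MeasureTheory Pool.Agent.Lib.H29.Krein

/-- Both parts of any minimal decomposition of a measurable Hermitian element of `R_A` are
measurable. -/
theorem result : ∀ A : ENNReal, 0 < A → ∀ f fp fn : ℝ → ℂ, InR (Itv A) f → Herm (Itv A) f →
    AEMeasurable f (volume.restrict (Itv A)) → (∀ x ∈ Itv A, f x = fp x - fn x) →
    InP (Itv A) fp → InP (Itv A) fn → fp 0 + fn 0 = nrm (Itv A) f →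
    AEMeasurable fp (volume.restrict (Itv A)) ∧ AEMeasurable fn (volume.restrict (Itv A)) :=
  fun A hA _ _ _ h _ hm hd hp hn hmin =>
    minimal (itv_open A) (itv_zero hA) (itv_neg A) h hm hd hp hn hmin

end Pool.Agent.Results.MP_a2f955_an.Minimal
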